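import Pool.Agent.H73.CTG.Stmts

/-!
Board CTG, row ANG: the angle function (MP_e1af46_an).
-/

set_option autoImplicit false

open Set Filter Topology

namespace Pool.CTG

theorem ang_unit (s : ℂ) : ∃ σ : ℂ, ‖σ‖ = 1 ∧ s = (‖s‖ : ℂ) * σ := by
  by_cases h : s = 0
  · exact ⟨1, by simp, by simp [h]⟩
  · have h1 : ‖s‖ ≠ 0 := norm_ne_zero_iff.2 h
    have h2 : (‖s‖ : ℂ) ≠ 0 := by exact_mod_cast h1
    refine ⟨s / (‖s‖ : ℂ), ?_, ?_⟩
    · rw [norm_div, Complex.norm_real, norm_norm, div_self h1]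
    · field_simp

theorem ang_real (B τ : ℝ) (hB0 : 0 ≤ B) (hB1 : B < 1) (hτ : 0 < τ)
    (hτ2 : τ < Real.tan (Real.arccos B / 2)) :
    Real.arccos ((B + τ * √(1 - B ^ 2)) / √(1 + τ ^ 2)) = Real.arccos B - Real.arctan τ := by
  have ha0 : 0 < Real.arccos B := Real.arccos_pos.2 hB1
  have ha1 : Real.arccos B ≤ Real.pi / 2 := Real.arccos_le_pi_div_two.2 hB0
  have hpi := Real.pi_pos
  have hb : Real.arctan τ < Real.arccos B / 2 := by
    have h := Real.arctan_strictMono hτ2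
    rwa [Real.arctan_tan (by linarith) (by linarith)] at h
  have hb0 : 0 < Real.arctan τ := Real.arctan_pos.2 hτ
  have h1 : (B + τ * √(1 - B ^ 2)) / √(1 + τ ^ 2) =
      Real.cos (Real.arccos B - Real.arctan τ) := by
    rw [Real.cos_sub, Real.cos_arccos (by linarith) hB1.le, Real.sin_arccos, Real.cos_arctan,
      Real.sin_arctan]
    ring
  rw [h1, Real.arccos_cos (by linarith) (by linarith)]

theorem ANG_thm : ANGStmt := by
  intro n y w hy hw hlt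
  have hN0 : 0 < ‖w‖ := norm_pos_iff.2 hw
  obtain ⟨N, hN⟩ : ∃ N : ℝ, N = ‖w‖ := ⟨_, rfl⟩
  rw [← hN] at hN0 hlt
  obtain ⟨σ, hσ, hs0⟩ := ang_unit (inner ℂ y w : ℂ)
  obtain ⟨B, hB⟩ : ∃ B : ℝ, B = ‖(inner ℂ y w : ℂ)‖ / N := ⟨_, rfl⟩
  have hB0 : 0 ≤ B := by rw [hB]; positivity
  have hB1 : B < 1 := by rw [hB]; exact (div_lt_one hN0).2 hlt
  have hNB : ‖(inner ℂ y w : ℂ)‖ = N * B := by
    rw [hB]; field_simp
  rw [hNB] at hs0
  obtain ⟨C, hC⟩ : ∃ C : ℝ, C = √(1 - B ^ 2) := ⟨_, rfl⟩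
  have hpos : 0 < 1 - B ^ 2 := by nlinarith
  have hC0 : 0 < C := by rw [hC]; exact Real.sqrt_pos.2 hpos
  have hC2 : C ^ 2 = 1 - B ^ 2 := by rw [hC]; exact Real.sq_sqrt hpos.le
  have hNc : (N : ℂ) ≠ 0 := by exact_mod_cast hN0.ne'
  have hCc : (C : ℂ) ≠ 0 := by exact_mod_cast hC0.ne'
  have hC2c : (C : ℂ) ^ 2 = 1 - (B : ℂ) ^ 2 := by exact_mod_cast hC2
  have hσσ : (starRingEnd ℂ) σ * σ = 1 := by
    rw [Complex.conj_mul', hσ]; simp
  have hyy : (inner ℂ y y : ℂ) = 1 := by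
    rw [inner_self_eq_norm_sq_to_K, hy]; simp
  have hww : (inner ℂ w w : ℂ) = (N : ℂ) ^ 2 := by
    rw [inner_self_eq_norm_sq_to_K, ← hN]; rfl
  have hwy : (inner ℂ w y : ℂ) = (N * B : ℂ) * (starRingEnd ℂ) σ := by
    rw [← inner_conj_symm, hs0]
    simp
  -- the direction
  let u : E n := σ • y - ((B / N : ℝ) : ℂ) • w
  let ω : E n := ((N / C : ℝ) : ℂ) • u
  have hyu : (inner ℂ y u : ℂ) = (C : ℂ) ^ 2 * σ := by
    change (inner ℂ y (σ • y - ((B / N : ℝ) : ℂ) • w) : ℂ) = _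
    rw [inner_sub_right, inner_smul_right, inner_smul_right, hyy, hs0, hC2c]
    push_cast
    field_simp
  have hwu : (inner ℂ w u : ℂ) = 0 := by
    change (inner ℂ w (σ • y - ((B / N : ℝ) : ℂ) • w) : ℂ) = _
    rw [inner_sub_right, inner_smul_right, inner_smul_right, hwy, hww]
    have : σ * ((N * B : ℂ) * (starRingEnd ℂ) σ) = N * B * ((starRingEnd ℂ) σ * σ) := by ring
    rw [this, hσσ]
    push_cast
    field_simp
    ring
  have huu : ‖u‖ = C := by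
    have h1 : (inner ℂ u u : ℂ) = (C : ℂ) ^ 2 := by
      have h2 : (inner ℂ u u : ℂ) = (starRingEnd ℂ) σ * (inner ℂ y u : ℂ) -
          (starRingEnd ℂ) ((B / N : ℝ) : ℂ) * (inner ℂ w u : ℂ) := by
        change (inner ℂ (σ • y - ((B / N : ℝ) : ℂ) • w) u : ℂ) = _
        rw [inner_sub_left, inner_smul_left, inner_smul_left]
      rw [h2, hyu, hwu]
      have : (starRingEnd ℂ) σ * ((C : ℂ) ^ 2 * σ) = (C : ℂ) ^ 2 * ((starRingEnd ℂ) σ * σ) := by
        ring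
      rw [this, hσσ]
      ring
    rw [inner_self_eq_norm_sq_to_K] at h1
    have h3 : ‖u‖ ^ 2 = C ^ 2 := by
      apply Complex.ofReal_injective
      push_cast
      exact h1
    exact (sq_eq_sq₀ (norm_nonneg _) hC0.le).1 h3
  have hω : ‖ω‖ = N := by
    change ‖((N / C : ℝ) : ℂ) • u‖ = N
    rw [norm_smul, huu, Complex.norm_real, Real.norm_eq_abs, abs_of_pos (by positivity)]
    field_simp
  refine ⟨ω, by rw [hω, hN], Real.tan (Real.arccos B / 2), ?_, ?_⟩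
  · have ha0 : 0 < Real.arccos B := Real.arccos_pos.2 hB1
    have ha1 : Real.arccos B ≤ Real.pi / 2 := Real.arccos_le_pi_div_two.2 hB0
    have hpi := Real.pi_pos
    exact Real.tan_pos_of_pos_of_lt_pi_div_two (by linarith) (by linarith)
  · intro τ hτ hτ2
    have h1 : (inner ℂ y (w + (τ : ℂ) • ω) : ℂ) = ((N * (B + τ * C) : ℝ) : ℂ) * σ := by
      change (inner ℂ y (w + (τ : ℂ) • ((N / C : ℝ) : ℂ) • u) : ℂ) = _
      rw [inner_add_right, inner_smul_right, inner_smul_right, hyu, hs0]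
      push_cast
      field_simp
    have h2 : ‖(inner ℂ y (w + (τ : ℂ) • ω) : ℂ)‖ = N * (B + τ * C) := by
      rw [h1, norm_mul, hσ, Complex.norm_real, Real.norm_eq_abs, abs_of_nonneg (by positivity),
        mul_one]
    have h3 : ‖w + (τ : ℂ) • ω‖ ^ 2 = N ^ 2 * (1 + τ ^ 2) := by
      rw [@norm_add_sq ℂ]
      have h4 : (inner ℂ w ((τ : ℂ) • ω) : ℂ) = 0 := by
        change (inner ℂ w ((τ : ℂ) • ((N / C : ℝ) : ℂ) • u) : ℂ) = _
        rw [inner_smul_right, inner_smul_right, hwu]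
        ring
      rw [h4, norm_smul, hω, ← hN, Complex.norm_real, Real.norm_eq_abs, abs_of_pos hτ]
      simp
      ring
    have h5 : ‖w + (τ : ℂ) • ω‖ = N * √(1 + τ ^ 2) := by
      have h6 : 0 ≤ N * √(1 + τ ^ 2) := by positivity
      rw [← sq_eq_sq₀ (norm_nonneg _) h6, h3, mul_pow, Real.sq_sqrt (by positivity)]
    rw [h2, h5, hNB, ← hN]
    have e1 : N * (B + τ * C) / (N * √(1 + τ ^ 2)) = (B + τ * √(1 - B ^ 2)) / √(1 + τ ^ 2) := by
      rw [mul_div_mul_left _ _ hN0.ne', hC]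
    have e2 : N * B / N = B := by field_simp
    rw [e1, e2]
    exact ang_real B τ hB0 hB1 hτ hτ2

end Pool.CTG
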